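import Pool.Agent.TG.Defs

/-!
# G3 Defs: curves over arcs, symmetric differentials, the functional

`X` is the cone (without `0`) over a projective manifold, `u` a holomorphic map to `ℂ^(k+1) / Λ` (conventions of `TG.Defs`).

* `Cv X Λ u U F h`: `F` is a holomorphic curve in `X` over the set `U` (used for open sets), `h` a lift of `u ∘ F`.
* `SForm X Λ u m`: symmetric differentials of degree `m` on `{(x, y) : u x = y mod Λ}` with values in `O(-1)`.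
* `PData`: finitely many symmetric differentials without common zeros outside `D`, quasi-periodic with respect to the weight `wt W y = ∑ |W i y|²`.
* `PS`: the properties of the real valued function `p (x, v) = max_j |P_j (x, v)|` (metrics of `O(-1)` and of the weight) which are used in the sequel.
* `QD`: the form `Q`, of degree `d`, `|Q x| ≤ |x|^d` on `X`; `Lq Q d x = - log (|Q x| / |x|^d) ≥ 0`.
* `Np = max (0, log (|h'|^m / p (F, F')))`, `Lam = Lq + K Np`, `Mf = max (|h'|, ε p (F, F')^(1/m))`.  (If `h' = 0` then `Np = 0`.  These definitions are used only at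
  points where `Ok` holds: `Q (F z) ≠ 0` and `0 < p (F z) (F' z)`.)
-/

set_option autoImplicit false

open Topology Filter Metric

namespace Pool.Agent.G3

open Pool.Agent.H36.BP (EN fs wd Sub)
open Pool.Agent.H14.PP (IsCone CurveAt Tan)
open Pool.Agent.H62.EF (MN pr)
open Pool.Agent.AD (Vd)
open Pool.Agent.TG (TMap Lat Geo Gd)

variable {N k : ℕ}

/-- `F` is a holomorphic curve in `X` over `U`, and `h` is a lift of `u ∘ F` -/
structure Cv (X : Set (EN N)) (Λ : AddSubgroup (Vd (k + 1))) (u : EN N → Vd (k + 1)) (U : Set ℂ) (F : ℂ → EN N) (h : ℂ → Vd (k + 1)) : Prop where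
  F_diff : DifferentiableOn ℂ F U
  h_diff : DifferentiableOn ℂ h U
  mem : ∀ z ∈ U, F z ∈ X
  lift : ∀ z ∈ U, u (F z) - h z ∈ Λ

/-- A symmetric differential of degree `m` on `{(x, y) : u x = y mod Λ}` with values in `O(-1)`: a function of `y`, a point `x` and a tangent vector `v`. -/
structure SForm (X : Set (EN N)) (Λ : AddSubgroup (Vd (k + 1))) (u : EN N → Vd (k + 1)) (m : ℕ) where
  /-- the form -/
  toFun : Vd (k + 1) → EN N → EN N → ℂ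
  add_smul : ∀ y, ∀ x ∈ X, u x - y ∈ Λ → ∀ v, Tan X x v → ∀ a : ℂ, toFun y x (v + a • x) = toFun y x v
  hom : ∀ y, ∀ x ∈ X, u x - y ∈ Λ → ∀ v, Tan X x v → ∀ a : ℂ, toFun y x (a • v) = a ^ m * toFun y x v
  scale : ∀ y, ∀ x ∈ X, u x - y ∈ Λ → ∀ v, Tan X x v → ∀ c : ℂ, c ≠ 0 → c * toFun y (c • x) (c • v) = toFun y x v
  analytic : ∀ (r : ℕ) (φ : Vd r → EN N) (υ : Vd r → Vd (k + 1)) (p w : Vd r), AnalyticAt ℂ φ p → AnalyticAt ℂ υ p →
    (∀ᶠ q in 𝓝 p, φ q ∈ X ∧ u (φ q) - υ q ∈ Λ) →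
    AnalyticAt ℂ (fun q : Vd r × Vd r => toFun (υ q.1) (φ q.1) (fderiv ℂ φ q.1 q.2)) (p, w)

/-- the weight `∑ |W i y|²` -/
noncomputable def wt {r : ℕ} (W : Fin r → Vd (k + 1) →L[ℂ] ℂ) (y : Vd (k + 1)) : ℝ := ∑ i, ‖W i y‖ ^ 2

/-- symmetric differentials without common zeros outside `D`, quasi-periodic with respect to the weight `wt W` -/
structure PData (X : Set (EN N)) (Λ : AddSubgroup (Vd (k + 1))) (u : EN N → Vd (k + 1)) (D : Set (Vd (k + 1))) {m J r : ℕ}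
    (P : Fin J → SForm X Λ u m) (W : Fin r → Vd (k + 1) →L[ℂ] ℂ) : Prop where
  m_pos : 1 ≤ m
  per : ∀ j, ∀ y, ∀ l ∈ Λ, ∀ x ∈ X, u x - y ∈ Λ → ∀ v, Tan X x v →
    ‖(P j).toFun (y + l) x v‖ * Real.exp (-wt W (y + l)) = ‖(P j).toFun y x v‖ * Real.exp (-wt W y)
  zero : ∀ y ∉ D, ∀ x ∈ X, u x - y ∈ Λ → ∀ v, Tan X x v → (∀ j, (P j).toFun y x v = 0) → ∃ c : ℂ, v = c • x

open Classical in
/-- the function `max_j |P_j (x, v)|` in the metrics of `O(-1)` and of the weight -/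
noncomputable def pP {X : Set (EN N)} {Λ : AddSubgroup (Vd (k + 1))} {u : EN N → Vd (k + 1)} {m J r : ℕ}
    (P : Fin J → SForm X Λ u m) (W : Fin r → Vd (k + 1) →L[ℂ] ℂ) (x v : EN N) : ℝ :=
  (⨆ j, ‖(P j).toFun (u x) x v‖) * ‖x‖ * Real.exp (-wt W (u x))

/-- the value of `p` on the curve `F` -/
noncomputable def pf (p : EN N → EN N → ℝ) (F : ℂ → EN N) (z : ℂ) : ℝ := p (F z) (deriv F z)

/-- `circleAverage (log |F|) z r - log |F z|` -/
noncomputable def TT (F : ℂ → EN N) (z : ℂ) (r : ℝ) : ℝ := Real.circleAverage (fun w => Real.log ‖F w‖) z r - Real.log ‖F z‖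

/-- the properties of the function `p` -/
structure PS (X : Set (EN N)) (Λ : AddSubgroup (Vd (k + 1))) (u : EN N → Vd (k + 1)) (D : Set (Vd (k + 1))) (p : EN N → EN N → ℝ) (m : ℕ) (C : ℝ) :
    Prop where
  m_pos : 1 ≤ m
  C_ge : 1 ≤ C
  nonneg : ∀ x v, 0 ≤ p x v
  hom : ∀ x ∈ X, ∀ v, Tan X x v → ∀ a : ℂ, p x (a • v) = ‖a‖ ^ m * p x v
  le_fs : ∀ x ∈ X, ∀ v, Tan X x v → p x v ≤ C * fs x v ^ m
  ge_fs : ∀ δ : ℝ, 0 < δ → ∃ c : ℝ, 0 < c ∧ ∀ y ∈ Gd D δ, ∀ x ∈ X, u x - y ∈ Λ → ∀ v, Tan X x v → c * fs x v ^ m ≤ p x v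
  /-- the derivative of `u` is bounded -/
  du : ∀ (U : Set ℂ) (F : ℂ → EN N) (h : ℂ → Vd (k + 1)), IsOpen U → Cv X Λ u U F h → ∀ z ∈ U, ‖deriv h z‖ ≤ C * fs (F z) (deriv F z)
  cont : ∀ (U : Set ℂ) (F : ℂ → EN N) (h : ℂ → Vd (k + 1)), IsOpen U → Cv X Λ u U F h → ContinuousOn (pf p F) U
  /-- Jensen's inequality -/
  jensen : ∀ (U : Set ℂ) (F : ℂ → EN N) (h : ℂ → Vd (k + 1)), IsOpen U → Cv X Λ u U F h → ∀ (z : ℂ) (r : ℝ), 0 < r → closedBall z r ⊆ U →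
    0 < pf p F z → CircleIntegrable (fun w => Real.log (pf p F w)) z r ∧
    Real.log (pf p F z) + TT F z r ≤ Real.circleAverage (fun w => Real.log (pf p F w)) z r + C * Real.circleAverage (fun w => ‖h w - h z‖ ^ 2) z r
  /-- the zeros of `p` on a curve are isolated, or `p` is `0` -/
  isol : ∀ (U : Set ℂ) (F : ℂ → EN N) (h : ℂ → Vd (k + 1)), IsOpen U → Cv X Λ u U F h → IsPreconnected U → (∃ z ∈ U, 0 < pf p F z) →
    ∀ z ∈ U, ∀ᶠ w in 𝓝[≠] z, 0 < pf p F w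

/-- the form `Q` of degree `d`, `|Q x| ≤ |x|^d` on `X`; it is `0` on the fibres over `D` -/
structure QD (X : Set (EN N)) (Λ : AddSubgroup (Vd (k + 1))) (u : EN N → Vd (k + 1)) (D : Set (Vd (k + 1))) (Q : EN N → ℂ) (d : ℕ) : Prop where
  d_pos : 1 ≤ d
  diff : Differentiable ℂ Q
  hom : ∀ (c : ℂ) (x : EN N), Q (c • x) = c ^ d * Q x
  bound : ∀ x ∈ X, ‖Q x‖ ≤ ‖x‖ ^ d
  zero : ∀ x ∈ X, ∀ y ∈ D, u x - y ∈ Λ → Q x = 0

/-- `- log (|Q x| / |x|^d)` -/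
noncomputable def Lq (Q : EN N → ℂ) (d : ℕ) (x : EN N) : ℝ := d * Real.log ‖x‖ - Real.log ‖Q x‖

/-- the point `z` is not degenerate -/
def Ok (Q : EN N → ℂ) (p : EN N → EN N → ℝ) (F : ℂ → EN N) (z : ℂ) : Prop := Q (F z) ≠ 0 ∧ 0 < pf p F z

/-- `max (0, log (|h'|^m / p (F, F')))` -/
noncomputable def Np (p : EN N → EN N → ℝ) (m : ℕ) (F : ℂ → EN N) (h : ℂ → Vd (k + 1)) (z : ℂ) : ℝ :=
  max 0 (-Real.log (pf p F z / ‖deriv h z‖ ^ m))

/-- the functional -/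
noncomputable def Lam (Q : EN N → ℂ) (d : ℕ) (p : EN N → EN N → ℝ) (m : ℕ) (F : ℂ → EN N) (h : ℂ → Vd (k + 1)) (z : ℂ) : ℝ :=
  Lq Q d (F z) + d * Np p m F h z

/-- `max (|h'|, ε p (F, F')^(1/m))` -/
noncomputable def Mf (p : EN N → EN N → ℝ) (m : ℕ) (ε : ℝ) (F : ℂ → EN N) (h : ℂ → Vd (k + 1)) (z : ℂ) : ℝ :=
  max ‖deriv h z‖ (ε * pf p F z ^ (1 / (m : ℝ)))

end Pool.Agent.G3
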