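import Pool.Agent.G3.Defs
import Pool.Agent.H36.BP.WdA

/-!
# G3 CvA: basic facts on curves over arcs
-/

set_option autoImplicit false

open Topology Filter Metric

namespace Pool.Agent.G3

open Pool.Agent.H36.BP (EN fs wd Sub)
open Pool.Agent.H14.PP (IsCone CurveAt Tan)
open Pool.Agent.H62.EF (MN pr)
open Pool.Agent.AD (Vd)
open Pool.Agent.TG (TMap Lat Geo Gd)

variable {N k : ℕ} {X : Set (EN N)} {Λ : AddSubgroup (Vd (k + 1))} {u : EN N → Vd (k + 1)} {D : Set (Vd (k + 1))} {p : EN N → EN N → ℝ} {m : ℕ} {C : ℝ}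

theorem Cv.mono {U V : Set ℂ} {F : ℂ → EN N} {h : ℂ → Vd (k + 1)} (hF : Cv X Λ u U F h) (hV : V ⊆ U) : Cv X Λ u V F h :=
  ⟨hF.F_diff.mono hV, hF.h_diff.mono hV, fun z hz => hF.mem z (hV hz), fun z hz => hF.lift z (hV hz)⟩

/-- composition with a holomorphic map -/
theorem Cv.comp {U V : Set ℂ} {F : ℂ → EN N} {h : ℂ → Vd (k + 1)} (hF : Cv X Λ u U F h) {φ : ℂ → ℂ} (hφ : DifferentiableOn ℂ φ V) (hm : Set.MapsTo φ V U) :
    Cv X Λ u V (fun z => F (φ z)) fun z => h (φ z) :=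
  ⟨hF.F_diff.comp hφ hm, hF.h_diff.comp hφ hm, fun z hz => hF.mem _ (hm hz), fun z hz => hF.lift _ (hm hz)⟩

/-- translation of the lift by a constant in `Λ` -/
theorem Cv.add {U : Set ℂ} {F : ℂ → EN N} {h : ℂ → Vd (k + 1)} (hF : Cv X Λ u U F h) {l : Vd (k + 1)} (hl : l ∈ Λ) : Cv X Λ u U F fun z => h z + l :=
  ⟨hF.F_diff, hF.h_diff.add_const l, hF.mem, fun z hz => by
    rw [← sub_sub]
    exact Λ.sub_mem (hF.lift z hz) hl⟩

/-- the derivative of a curve is a tangent vector -/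
theorem Cv.tan {U : Set ℂ} (hU : IsOpen U) {F : ℂ → EN N} {h : ℂ → Vd (k + 1)} (hF : Cv X Λ u U F h) {z : ℂ} (hz : z ∈ U) :
    Tan X (F z) (deriv F z) := by
  have hUz : U ∈ 𝓝 z := hU.mem_nhds hz
  have han : AnalyticAt ℂ F z := hF.F_diff.analyticAt hUz
  have hmap : Tendsto (fun w : ℂ => w + z) (𝓝 0) (𝓝 z) := by
    have h1 : Tendsto (fun w : ℂ => w + z) (𝓝 0) (𝓝 (0 + z)) := (continuous_id.add continuous_const).tendsto 0
    rwa [zero_add] at h1
  refine ⟨fun w => F (w + z), ⟨?_, ?_⟩, by simp, ?_⟩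
  · have h2 : AnalyticAt ℂ (fun w : ℂ => w + z) 0 := analyticAt_id.add analyticAt_const
    exact han.comp_of_eq h2 (by simp)
  · filter_upwards [hmap.eventually hUz] with w hw
    exact hF.mem _ hw
  · rw [deriv_comp_add_const]
    simp

end Pool.Agent.G3
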