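import Pool.Agent.G3.Defs

/-!
# G3 LLift: local lifts of maps to the projective space
-/

set_option autoImplicit false

open Topology Filter Metric

namespace Pool.Agent.G3

open Pool.Agent.H36.BP (EN fs wd Sub)
open Pool.Agent.H14.PP (IsCone CurveAt Tan)
open Pool.Agent.H62.EF (MN pr)
open Pool.Agent.AD (Vd)
open Pool.Agent.TG (TMap Lat Geo Gd)

/-- `f` has a holomorphic lift near `z` -/
def LLift {N : ℕ} (f : ℂ → MN N) (z : ℂ) : Prop := ∃ Φ : ℂ → EN N, AnalyticAt ℂ Φ z ∧ ∀ᶠ w in 𝓝 z, Φ w ≠ 0 ∧ f w = pr (Φ w)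

end Pool.Agent.G3
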